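import Pool.Agent.Helper9.TC.RegD
import Pool.Agent.Helper69.TC.Small

/-!
# MP_1181b9_nt: two cyclic numbers between consecutive squares

A positive integer `c` is cyclic (every group of order `c` is cyclic) iff `gcd (c, φ c) = 1`.
We prove that for every `n ≥ 1` there are at least two cyclic numbers strictly between `n ^ 2`
and `(n + 1) ^ 2`.
-/

set_option autoImplicit false

namespace Pool.Agent.Results.MP_1181b9_nt.TwoCyclic

open Pool.Agent.Helper9.TC in
/-- For every `n ≥ 1` there are two cyclic numbers strictly between `n ^ 2` and `(n + 1) ^ 2`. -/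
theorem result : ∀ n : ℕ, 1 ≤ n → ∃ c c' : ℕ,
    (0 < c ∧ Nat.Coprime c (Nat.totient c)) ∧ (0 < c' ∧ Nat.Coprime c' (Nat.totient c')) ∧
      n ^ 2 < c ∧ c < c' ∧ c' < (n + 1) ^ 2 := by
  intro n hn
  rcases lt_or_ge n 2000000 with h | h
  · exact Pool.Agent.Helper69.TC.small_case n hn h
  · exact large_case' n h

end Pool.Agent.Results.MP_1181b9_nt.TwoCyclic
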